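import Pool.Agent.Lib.MP_688fd0_co.OSF.Iface

/-!
Board `os_modules`, module WIN: there is always a window.
-/

set_option autoImplicit false

namespace Pool.Agent.Lib.MP_688fd0_co.OSF.H62

universe u v

section

variable {Q : Type u} [Group Q]

/-- in a group of odd order, only the neutral element is its own inverse -/
theorem eq_one_of_sq [Finite Q] (hodd : Odd (Nat.card Q)) {x : Q} (h : x ^ 2 = 1) : x = 1 := by
  obtain ⟨k, hk⟩ := hodd
  have h1 : x ^ (2 * k + 1) = 1 := by rw [← hk, pow_card_eq_one']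
  rwa [pow_succ, pow_mul, h, one_pow, one_mul] at h1

/-- the same for the values of a homomorphism -/
theorem chi_eq_one_of_sq [Finite Q] (hodd : Odd (Nat.card Q)) {R : Type*} [CommRing R]
    (chi : Q →* R) {x : Q} (h : chi x ^ 2 = 1) : chi x = 1 := by
  obtain ⟨k, hk⟩ := hodd
  have h1 : chi x ^ (2 * k + 1) = 1 := by rw [← hk, ← map_pow, pow_card_eq_one', map_one]
  rwa [pow_succ, pow_mul, h, one_pow, one_mul] at h1

theorem sm_inv {a x : Q} {N : ℕ} (h : Sm a x⁻¹ N) : Sm a x N := by
  obtain ⟨c, hc, hx⟩ := h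
  exact ⟨-c, by rwa [abs_neg], by rw [zpow_neg, ← hx, inv_inv]⟩

theorem sm_mono {a x : Q} {N M : ℕ} (hNM : N ≤ M) (h : Sm a x N) : Sm a x M := by
  obtain ⟨c, hc, hx⟩ := h
  exact ⟨c, hc.trans (by exact_mod_cast hNM), hx⟩

variable {B : Lb.{u, v} Q} {R : Type*} [CommRing R] (V : Vd B R)

theorem kap_inv (a s : B.L) : V.kap a (B.inv s) = -(V.chi (B.q s)⁻¹ * V.kap a s) := by
  have h : V.chi (B.q s)⁻¹ * V.chi (B.q s) = 1 := by rw [← map_mul, inv_mul_cancel, map_one]
  simp only [Vd.kap, V.n_inv, B.q_inv]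
  linear_combination (-(V.n a)) * h

theorem kap_inv_ne {a s : B.L} (h : V.kap a s ≠ 0) : V.kap a (B.inv s) ≠ 0 := by
  rw [kap_inv]
  intro h0
  apply h
  have h1 : V.chi (B.q s) * V.chi (B.q s)⁻¹ = 1 := by rw [← map_mul, mul_inv_cancel, map_one]
  calc V.kap a s = (V.chi (B.q s) * V.chi (B.q s)⁻¹) * V.kap a s := by rw [h1, one_mul]
    _ = -(V.chi (B.q s) * -(V.chi (B.q s)⁻¹ * V.kap a s)) := by ring
    _ = 0 := by rw [h0, mul_zero, neg_zero]

end

theorem win (h1 : W1S.{u, v}) (h2 : W2S.{u, v}) (h3 : W3S.{u, v}) : WinS.{u, v} := by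
  intro Q _ B p V a s hy hs1 hs2 hk
  have := hy.fin
  have hk' := kap_inv_ne V hk
  by_cases c1 : Sm (B.q a) (B.q s) 60
  · obtain ⟨c, hc, hx⟩ := c1
    rw [abs_le] at hc
    rcases lt_trichotomy c 0 with h | h | h
    · refine h1 Q B p V a (B.inv s) (-c).toNat hy (by omega) (by omega) ?_ hk'
      rw [B.q_inv, hx, ← zpow_natCast, ← zpow_neg]
      congr 1
      omega
    · subst h
      rw [zpow_zero] at hx
      exact absurd hx (B.ne_one s)
    · refine h1 Q B p V a s c.toNat hy (by omega) (by omega) ?_ hk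
      rw [hx, ← zpow_natCast]
      congr 1
      omega
  · have c1' : ¬ Sm (B.q a) (B.q (B.inv s)) 60 := fun h => c1 (sm_inv (by rwa [B.q_inv] at h))
    by_cases c2 : Sm (B.q a) (B.q s ^ 2) 20
    · obtain ⟨d, hd, hx⟩ := c2
      rw [abs_le] at hd
      have hodd : ¬ Even d := by
        rintro ⟨k, rfl⟩
        apply c1
        refine ⟨k, ?_, ?_⟩
        · rw [abs_le]
          constructor <;> push_cast at hd ⊢ <;> omega
        · have hcomm : Commute (B.q s) (B.q a ^ (-k)) :=
            Commute.zpow_right (show Commute (B.q s) (B.q a) from hy.cen (B.q s)) _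
          have h4 : (B.q s * B.q a ^ (-k)) ^ 2 = 1 := by
            rw [hcomm.mul_pow, hx, ← zpow_natCast, ← zpow_mul, ← zpow_add,
              show k + k + -k * ((2 : ℕ) : ℤ) = 0 by push_cast; ring, zpow_zero]
          have h5 := eq_one_of_sq hy.odd h4
          rw [zpow_neg, mul_inv_eq_one] at h5
          exact h5
      have hd1 : d ≠ 1 := by
        rintro rfl
        rw [zpow_one] at hx
        exact hs1 hx
      have hd2 : d ≠ -1 := by
        rintro rfl
        rw [zpow_neg_one] at hx
        exact hs2 hx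
      have hodd' : d % 2 = 1 := by
        rw [Int.even_iff] at hodd
        omega
      push_cast at hd
      rcases lt_trichotomy d 0 with h | h | h
      · refine h2 Q B p V a (B.inv s) (-d).toNat hy c1' (by omega) (by omega) ?_ hk'
        rw [B.q_inv, inv_pow, hx, ← zpow_natCast, ← zpow_neg]
        congr 1
        omega
      · omega
      · refine h2 Q B p V a s d.toNat hy c1 (by omega) (by omega) ?_ hk
        rw [hx, ← zpow_natCast]
        congr 1
        omega
    · have c3 : ¬ Sm (B.q a) (B.q s) 20 := fun h => c1 (sm_mono (by norm_num) h)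
      by_cases c4 : V.chi (B.q s) = V.chi (B.q a)
      · refine h3 Q B p V a (B.inv s) hy (fun h => c3 (sm_inv (by rwa [B.q_inv] at h)))
          (fun h => c2 (sm_inv (by rwa [B.q_inv, inv_pow] at h))) ?_ hk'
        rw [B.q_inv, ← c4]
        intro h
        have h5 : V.chi (B.q s) ^ 2 = 1 := by
          rw [sq]
          nth_rewrite 1 [← h]
          rw [← map_mul, inv_mul_cancel, map_one]
        have h6 := chi_eq_one_of_sq hy.odd V.chi h5
        apply hk
        rw [Vd.kap, ← c4, h6]
        ring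
      · exact h3 Q B p V a s hy c3 c2 c4 hk

end Pool.Agent.Lib.MP_688fd0_co.OSF.H62
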